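import Pool.Agent.R378.NL
import Pool.Agent.Results.MP_663568_nt.NullFrequencySets

/-! Logarithmic averages of short exponential sums of the Liouville function, the supremum over the frequencies in
a closed set inside the average: the bound is the square root of the measure of the set. -/

set_option autoImplicit false

namespace Pool.Agent.Results.MP_f12790_nt.RestrictedFrequencies

open Finset MeasureTheory
open Pool.Agent.R378.NL (mm mz char_sharp rho)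

/-- `E` is covered by at most `κ n` arcs with centres in a finite set and radius `1 / n`. -/
def Thin (E : Set UnitAddCircle) (κ : ℝ) (n : ℕ) : Prop :=
  ∃ S : Finset UnitAddCircle, (S.card : ℝ) ≤ κ * n ∧ ∀ g ∈ E, ∃ y ∈ S, dist g y ≤ 1 / n

/-- The supremum over the frequencies `α ∈ E` of `|∑_{h ≤ H} λ(n + h) e(h α)|`. -/
noncomputable def lamSup (E : Set UnitAddCircle) (n H : ℕ) : ℝ :=
  ⨆ α : E, ‖∑ h ∈ Icc 1 H, (-1 : ℂ) ^ (ArithmeticFunction.cardFactors (n + h)) *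
    fourier (h : ℤ) (α : UnitAddCircle)‖

/-- the sum `A(H, ω, X)` of the question with the supremum over the frequencies in `E` -/
noncomputable def A (E : Set UnitAddCircle) (H : ℕ) (ω X : ℝ) : ℝ :=
  ∑ n ∈ Icc ⌈X / ω⌉₊ ⌊X⌋₊, lamSup E n H / n

lemma lamSup_nonneg (E : Set UnitAddCircle) (n H : ℕ) : 0 ≤ lamSup E n H :=
  Real.iSup_nonneg fun _ => norm_nonneg _

lemma conv (m H : ℕ) (α : UnitAddCircle) :
    ‖∑ j ∈ Ioc m (m + H), mm j * fourier (j : ℤ) α‖ =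
      ‖∑ h ∈ Icc 1 H, (-1 : ℂ) ^ (ArithmeticFunction.cardFactors (m + h)) * fourier (h : ℤ) α‖ := by
  have h1 : Ioc m (m + H) = (Icc 1 H).image (fun h => m + h) := by
    ext j
    simp only [mem_Ioc, mem_image, mem_Icc]
    constructor
    · intro h; exact ⟨j - m, by omega, by omega⟩
    · rintro ⟨j, hj, rfl⟩; omega
  rw [h1, sum_image fun a _ b _ hab => by omega]
  have h2 : ∑ h ∈ Icc 1 H, mm (m + h) * fourier ((m + h : ℕ) : ℤ) α = fourier (m : ℤ) α *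
      ∑ h ∈ Icc 1 H, (-1 : ℂ) ^ (ArithmeticFunction.cardFactors (m + h)) * fourier (h : ℤ) α := by
    rw [mul_sum]
    refine sum_congr rfl fun h _ => ?_
    have e : mm (m + h) = (-1 : ℂ) ^ (ArithmeticFunction.cardFactors (m + h)) := by
      unfold mm mz
      push_cast
      rfl
    rw [e]
    push_cast
    rw [fourier_add]
    ring
  rw [h2, norm_mul, Pool.Agent.R378.NF.norm_fourier, one_mul]

/-- from choices of frequencies to the supremum -/
theorem near_sup (E : Set UnitAddCircle) (N H : ℕ) (B : ℝ) (hB : 0 ≤ B)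
    (h : ∀ α : ℕ → UnitAddCircle, (∀ m, α m ∈ E) →
      ∑ m ∈ Icc 1 N, (1 / (m : ℝ)) * ‖∑ j ∈ Ioc m (m + H), mm j * fourier (j : ℤ) (α m)‖ ≤ B) :
    ∑ m ∈ Icc 1 N, (1 / (m : ℝ)) * lamSup E m H ≤ B := by
  rcases E.eq_empty_or_nonempty with hem | hne
  · subst hem
    have h0 : ∀ m, lamSup (∅ : Set UnitAddCircle) m H = 0 := fun m => Real.iSup_of_isEmpty _
    simp only [h0, mul_zero, sum_const_zero]
    exact hB
  apply le_of_forall_pos_le_add
  intro δ hδ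
  have hne' : Nonempty E := hne.to_subtype
  have hhar : 0 ≤ ∑ m ∈ Icc 1 N, 1 / (m : ℝ) := sum_nonneg fun _ _ => by positivity
  set δ' : ℝ := δ / (∑ m ∈ Icc 1 N, 1 / (m : ℝ) + 1) with hδ'
  have hδ'0 : 0 < δ' := by positivity
  have hnear : ∀ m : ℕ, ∃ α : UnitAddCircle, α ∈ E ∧
      lamSup E m H ≤ ‖∑ j ∈ Ioc m (m + H), mm j * fourier (j : ℤ) α‖ + δ' := by
    intro m
    obtain ⟨α, hα⟩ := exists_lt_of_lt_ciSup (show lamSup E m H - δ' < lamSup E m H by linarith)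
    refine ⟨α, α.2, ?_⟩
    rw [conv]
    linarith
  choose α hα1 hα2 using hnear
  have h1 := h α hα1
  calc ∑ m ∈ Icc 1 N, (1 / (m : ℝ)) * lamSup E m H
      ≤ ∑ m ∈ Icc 1 N, (1 / (m : ℝ)) * (‖∑ j ∈ Ioc m (m + H), mm j * fourier (j : ℤ) (α m)‖ + δ') :=
        sum_le_sum fun m _ => mul_le_mul_of_nonneg_left (hα2 m) (by positivity)
    _ = ∑ m ∈ Icc 1 N, (1 / (m : ℝ)) * ‖∑ j ∈ Ioc m (m + H), mm j * fourier (j : ℤ) (α m)‖ +
        (∑ m ∈ Icc 1 N, 1 / (m : ℝ)) * δ' := by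
        simp_rw [mul_add, sum_add_distrib]
        rw [sum_mul]
    _ ≤ B + δ := by
        apply add_le_add h1
        rw [hδ', mul_div_assoc', div_le_iff₀ (by positivity)]
        nlinarith

/-- from the average over `[1, X]` to the averages over `[X / ω, X]` -/
lemma to_omega (E : Set UnitAddCircle) (θ c ε : ℝ) (hθ : 0 ≤ θ) (hc : 0 < c) (hε : 0 < ε) (H : ℕ) (hH : 3 ≤ H)
    (h : ∀ N : ℕ, H ≤ N → ∑ m ∈ Icc 1 N, (1 / (m : ℝ)) * lamSup E m H ≤ (θ + ε * c) * H * Real.log N)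
    (ω X : ℝ) (h1 : (H : ℝ) ≤ ω) (h2 : ω ≤ X) (h3 : X ^ c ≤ ω) :
    A E H ω X ≤ (θ / c + ε) * H * Real.log ω := by
  have hH3 : (3 : ℝ) ≤ H := by exact_mod_cast hH
  have hω : 0 < ω := by linarith
  have hX : 0 < X := by linarith
  have hN : H ≤ ⌊X⌋₊ := Nat.le_floor (h1.trans h2)
  have hcl : 1 ≤ ⌈X / ω⌉₊ := Nat.one_le_iff_ne_zero.2 (Nat.ceil_pos.2 (by positivity)).ne'
  have e1 : A E H ω X ≤ ∑ m ∈ Icc 1 ⌊X⌋₊, (1 / (m : ℝ)) * lamSup E m H := by
    unfold A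
    have e2 : ∑ n ∈ Icc ⌈X / ω⌉₊ ⌊X⌋₊, lamSup E n H / n =
        ∑ m ∈ Icc ⌈X / ω⌉₊ ⌊X⌋₊, (1 / (m : ℝ)) * lamSup E m H :=
      sum_congr rfl fun m _ => by ring
    rw [e2]
    apply sum_le_sum_of_subset_of_nonneg
    · intro m hm
      rw [mem_Icc] at hm ⊢
      omega
    · intro m _ _
      exact mul_nonneg (by positivity) (lamSup_nonneg _ _ _)
  have e3 : Real.log (⌊X⌋₊ : ℝ) ≤ Real.log X := by
    apply Real.log_le_log _ (Nat.floor_le hX.le)
    exact_mod_cast (by omega : 0 < ⌊X⌋₊)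
  have e4 : c * Real.log X ≤ Real.log ω := by
    rw [← Real.log_rpow hX]
    exact Real.log_le_log (by positivity) h3
  have e5 : 0 ≤ (θ + ε * c) * H := by positivity
  calc A E H ω X ≤ (θ + ε * c) * H * Real.log (⌊X⌋₊ : ℝ) := e1.trans (h _ hN)
    _ ≤ (θ + ε * c) * H * Real.log X := mul_le_mul_of_nonneg_left e3 e5
    _ = ((θ + ε * c) * H / c) * (c * Real.log X) := by field_simp
    _ ≤ ((θ + ε * c) * H / c) * Real.log ω := mul_le_mul_of_nonneg_left e4 (by positivity)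
    _ = (θ / c + ε) * H * Real.log ω := by field_simp

theorem closed_set (E : Set UnitAddCircle) (hE : IsClosed E) (c : ℝ) (hc : 0 < c) (ε : ℝ) (hε : 0 < ε) :
    ∃ H₀ : ℕ, ∀ H : ℕ, H₀ ≤ H → ∀ ω X : ℝ, (H : ℝ) ≤ ω → ω ≤ X → X ^ c ≤ ω →
      A E H ω X ≤ (Real.sqrt (volume E).toReal / c + ε) * H * Real.log ω := by
  obtain ⟨H₀, h⟩ := char_sharp E hE (ε * c) (by positivity)
  refine ⟨max H₀ 3, fun H hH ω X h1 h2 h3 => ?_⟩
  have b1 : H₀ ≤ H := (le_max_left _ _).trans hH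
  have b3 : 3 ≤ H := (le_max_right _ _).trans hH
  refine to_omega E _ c ε (Real.sqrt_nonneg _) hc hε H b3 (fun N hHN => ?_) ω X h1 h2 h3
  have hNr : (3 : ℝ) ≤ N := by exact_mod_cast b3.trans hHN
  have hlog : 0 ≤ Real.log N := Real.log_nonneg (by linarith)
  refine near_sup E N H _ (by positivity) fun α hα => ?_
  have h4 := h N H b1 hHN α hα
  unfold rho at h4
  rwa [one_mul] at h4

open Pool.Agent.Results.MP_663568_nt.NullFrequencySets (gridSet gridSet_closed gridSet_volume grid_near) in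
theorem thin_set (κ : ℝ) (n : ℕ) (hn : 1 ≤ n) (c : ℝ) (hc : 0 < c) (ε : ℝ) (hε : 0 < ε) :
    ∃ H₀ : ℕ, ∀ H : ℕ, H₀ ≤ H → ∀ ω X : ℝ, (H : ℝ) ≤ ω → ω ≤ X → X ^ c ≤ ω →
      ∀ E : Set UnitAddCircle, Thin E κ n →
      A E H ω X ≤ (Real.sqrt (3 * κ) / c + ε) * H * Real.log ω := by
  have hn0 : (0 : ℝ) < n := by exact_mod_cast hn
  have hall : ∀ J : Finset ℕ, ∃ H₀ : ℕ, ∀ N H : ℕ, H₀ ≤ H → H ≤ N →
      ∀ α : ℕ → UnitAddCircle, (∀ m, α m ∈ gridSet n J) →
      ∑ m ∈ Icc 1 N, (1 / (m : ℝ)) * ‖∑ j ∈ Ioc m (m + H), mm j * fourier (j : ℤ) (α m)‖ ≤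
        (Real.sqrt (rho * (volume (gridSet n J)).toReal) + ε * c) * H * Real.log N :=
    fun J => char_sharp _ (gridSet_closed n J) (ε * c) (by positivity)
  choose H₁ hH₁ using hall
  refine ⟨max ((range n).powerset.sup H₁) 3, fun H hH ω X o1 o2 o3 E hE => ?_⟩
  have b3 : 3 ≤ H := (le_max_right _ _).trans hH
  refine to_omega E _ c ε (Real.sqrt_nonneg _) hc hε H b3 (fun N hHN => ?_) ω X o1 o2 o3
  have hNr : (3 : ℝ) ≤ N := by exact_mod_cast b3.trans hHN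
  have hlog : 0 ≤ Real.log N := Real.log_nonneg (by linarith)
  obtain ⟨S, hS, hcov⟩ := hE
  choose g hg1 hg2 using grid_near n hn
  set J : Finset ℕ := S.image g with hJ
  have hJn : J ∈ (range n).powerset := by
    rw [mem_powerset, hJ]
    intro j hj
    obtain ⟨y, _, rfl⟩ := mem_image.1 hj
    exact mem_range.2 (hg1 y)
  have b1 : H₁ J ≤ H := ((Finset.le_sup hJn).trans (le_max_left _ _)).trans hH
  have hEJ : E ⊆ gridSet n J := by
    intro x hx
    obtain ⟨y, hy, hxy⟩ := hcov x hx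
    refine Set.mem_iUnion₂.2 ⟨g y, mem_image_of_mem g hy, ?_⟩
    rw [Metric.mem_closedBall]
    refine (dist_triangle _ y _).trans ((add_le_add hxy (hg2 y)).trans (le_of_eq ?_))
    field_simp
    norm_num
  refine near_sup E N H _ (by positivity) fun α hα => (hH₁ J N H b1 hHN α fun m => hEJ (hα m)).trans ?_
  have h1 : (volume (gridSet n J)).toReal ≤ 3 * κ := by
    refine (gridSet_volume n J).trans ?_
    have h2 : (J.card : ℝ) ≤ κ * n := le_trans (by exact_mod_cast card_image_le) hS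
    calc (J.card : ℝ) * (3 / n) ≤ κ * n * (3 / n) := by gcongr
      _ = 3 * κ := by field_simp
  unfold rho
  rw [one_mul]
  have h3 : Real.sqrt (volume (gridSet n J)).toReal ≤ Real.sqrt (3 * κ) := Real.sqrt_le_sqrt h1
  gcongr

/-- **Log-averaged short exponential sums of the Liouville function with restricted frequencies.** -/
theorem result :
    (∀ E : Set UnitAddCircle, IsClosed E → ∀ c : ℝ, 0 < c → ∀ ε : ℝ, 0 < ε →
      ∃ H₀ : ℕ, ∀ H : ℕ, H₀ ≤ H → ∀ ω X : ℝ, (H : ℝ) ≤ ω → ω ≤ X → X ^ c ≤ ω →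
        A E H ω X ≤ (Real.sqrt (volume E).toReal / c + ε) * H * Real.log ω) ∧
    (∀ (κ : ℝ) (n : ℕ), 1 ≤ n → ∀ c : ℝ, 0 < c → ∀ ε : ℝ, 0 < ε →
      ∃ H₀ : ℕ, ∀ H : ℕ, H₀ ≤ H → ∀ ω X : ℝ, (H : ℝ) ≤ ω → ω ≤ X → X ^ c ≤ ω →
        ∀ E : Set UnitAddCircle, Thin E κ n →
          A E H ω X ≤ (Real.sqrt (3 * κ) / c + ε) * H * Real.log ω) :=
  ⟨closed_set, thin_set⟩

end Pool.Agent.Results.MP_f12790_nt.RestrictedFrequencies
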